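import Pool.Agent.Helper17.IA.StV

/-!
# Project IA (MP_953b28_co), module ITS: one step of the iteration
-/

set_option autoImplicit false

namespace Pool.Agent.Helper18.IA

open Finset Pool.Agent.Helper93.IA Pool.Agent.Helper17.IA

variable {N : ℕ}

private theorem m1_ins (A : Finset (Fin N × Fin N)) (S T U : Finset (Fin N)) (hU : U ⊆ T)
    (a : Fin N) (ha : a ∈ S) : m1 (ins A S T) U a = m1 A U a := by
  unfold m1 ins
  congr 1
  apply Finset.filter_congr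
  intro b hb
  have := hU hb
  simp [ha, this]

private theorem m2_ins (A : Finset (Fin N × Fin N)) (S T U : Finset (Fin N)) (hU : U ⊆ S)
    (b : Fin N) (hb : b ∈ T) : m2 (ins A S T) U b = m2 A U b := by
  unfold m2 ins
  congr 1
  apply Finset.filter_congr
  intro a ha
  have := hU ha
  simp [hb, this]

private theorem bi_ins (A : Finset (Fin N × Fin N)) (S T U1 U2 : Finset (Fin N)) (h1 : U1 ⊆ S)
    (h2 : U2 ⊆ T) (lo hi : ℝ) (h : Bi A S T U1 U2 lo hi) : Bi (ins A S T) S T U1 U2 lo hi := by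
  refine ⟨fun a ha => ?_, fun b hb => ?_⟩
  · rw [m1_ins A S T U2 h2 a ha]
    exact h.1 a ha
  · rw [m2_ins A S T U1 h1 b hb]
    exact h.2 b hb

private theorem ins_ins (A : Finset (Fin N × Fin N)) (S T U1 U2 : Finset (Fin N)) (h1 : U1 ⊆ S)
    (h2 : U2 ⊆ T) : ins (ins A S T) U1 U2 = ins A U1 U2 := by
  ext e
  simp only [ins, mem_filter]
  constructor
  · rintro ⟨⟨h, _⟩, h'⟩
    exact ⟨h, h'⟩
  · rintro ⟨h, h'⟩
    exact ⟨⟨h, h1 h'.1, h2 h'.2⟩, h'⟩

private theorem agree_step (A A2 Q : Finset (Fin N × Fin N)) (U1 U2 W1 W2 : Finset (Fin N))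
    (h : ins A2 U1 U2 = ins A U1 U2) (h1 : W1 ⊆ U1) (h2 : W2 ⊆ U2) (hQ : ins Q W1 W2 = ∅) :
    ins (A2 \ Q) W1 W2 = ins A W1 W2 := by
  ext e
  constructor
  · intro he
    rw [ins, mem_filter, mem_sdiff] at he
    obtain ⟨⟨he1, _⟩, he2⟩ := he
    have : e ∈ ins A2 U1 U2 := by
      rw [ins, mem_filter]
      exact ⟨he1, h1 he2.1, h2 he2.2⟩
    rw [h, ins, mem_filter] at this
    rw [ins, mem_filter]
    exact ⟨this.1, he2⟩
  · intro he
    rw [ins, mem_filter] at he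
    have h3 : e ∈ ins A U1 U2 := by
      rw [ins, mem_filter]
      exact ⟨he.1, h1 he.2.1, h2 he.2.2⟩
    rw [← h, ins, mem_filter] at h3
    rw [ins, mem_filter, mem_sdiff]
    refine ⟨⟨h3.1, fun hq => ?_⟩, he.2⟩
    have : e ∈ ins Q W1 W2 := by
      rw [ins, mem_filter]
      exact ⟨hq, he.2⟩
    rw [hQ] at this
    exact absurd this (Finset.notMem_empty e)

private theorem sub_step (A A2 Q : Finset (Fin N × Fin N)) (U1 U2 : Finset (Fin N))
    (h : ins A2 U1 U2 = ins A U1 U2) : ins A U1 U2 \ (A2 \ Q) ⊆ ins Q U1 U2 := by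
  intro e he
  rw [mem_sdiff] at he
  obtain ⟨h1, h2⟩ := he
  rw [← h, ins, mem_filter] at h1
  rw [ins, mem_filter]
  refine ⟨?_, h1.2⟩
  by_contra hq
  exact h2 (mem_sdiff.mpr ⟨h1.1, hq⟩)

private theorem sm_mono (X Y : Finset (Fin N × Fin N)) (t : ℝ) (h : Y ⊆ X) (hX : Sm X t) :
    Sm Y t := by
  refine ⟨fun a => ?_, fun b => ?_⟩
  · refine le_trans ?_ (hX.1 a)
    exact_mod_cast card_le_card (filter_subset_filter _ h)
  · refine le_trans ?_ (hX.2 b)
    exact_mod_cast card_le_card (filter_subset_filter _ h)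

theorem hITS : StITS := by
  intro hPKB hPKU hCDF ξ g ε n0 hξ hg hCDP N ℓ i κ A B C A' B' C' A'' B'' C'' V hi hκ hκ2 hV
    hA' hB' hC' hS
  -- the cards
  have hcard : ∀ j, (V i j).card = (V i 0).card := by
    intro j
    rcases i with _ | i'
    · rw [hV.zero j, hV.zero 0]
    · rw [hV.card i' (by omega) j, hV.card i' (by omega) 0]
  set n := (V i 0).card with hn
  set m := ⌊ξ * (n : ℝ)⌋₊ with hm
  have hUc : ∀ j, (V (i + 1) j).card = m := fun j => hV.card i hi j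
  -- the third level
  obtain ⟨W, hWU, hWc, hWV⟩ : ∃ W : Fin 3 → Finset (Fin N), (∀ j, W j ⊆ V (i + 1) j) ∧
      (∀ j, ((W j).card : ℝ) ≤ ξ * m) ∧ (i + 1 < ℓ → ∀ j, W j = V (i + 1 + 1) j) := by
    by_cases h : i + 1 < ℓ
    · refine ⟨V (i + 1 + 1), fun j => hV.sub (i + 1) h j, fun j => ?_, fun _ j => rfl⟩
      rw [hV.card (i + 1) h j, hUc 0]
      exact Nat.floor_le (by positivity)
    · refine ⟨fun _ => ∅, fun j => empty_subset _, fun j => ?_, fun h' => absurd h' h⟩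
      simp only [card_empty, Nat.cast_zero]
      positivity
  obtain ⟨P0, hP0, hA'', hB'', hC''⟩ := hS.pk
  have hsub : ∀ j, V (i + 1) j ⊆ V i j := fun j => hV.sub i hi j
  have hAA : A'' ⊆ ins A (V i 0) (V i 1) := by
    intro e he
    rw [ins, mem_filter]
    refine ⟨hA' ?_, hS.iA e he⟩
    rw [hA''] at he
    exact (mem_sdiff.mp he).1
  have hBB : B'' ⊆ ins B (V i 1) (V i 2) := by
    intro e he
    rw [ins, mem_filter]
    refine ⟨hB' ?_, hS.iB e he⟩
    rw [hB''] at he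
    exact (mem_sdiff.mp he).1
  have hCC : C'' ⊆ ins C (V i 2) (V i 0) := by
    intro e he
    rw [ins, mem_filter]
    refine ⟨hC' ?_, hS.iC e he⟩
    rw [hC''] at he
    exact (mem_sdiff.mp he).1
  have hnear := hV.near i hi.le
  have hnext := hV.next i hi
  rw [hUc 0] at hnext
  have key : CDC g m A'' B'' C'' (V (i + 1)) W := by
    refine hCDF ξ g ε n0 hg hCDP N n m κ (ins A (V i 0) (V i 1)) (ins B (V i 1) (V i 2))
      (ins C (V i 2) (V i 0)) A'' B'' C'' (V i) (V (i + 1)) W hκ hκ2 (hV.big i hi.le 0) hm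
      hcard hUc hsub hWU hWc ?_ ?_ ?_ hAA hBB hCC ?_ ?_ (hS.sA hi) (hS.sB hi) (hS.sC hi) ?_ ?_ ?_
      hS.bal
    · intro e he
      exact (mem_filter.mp he).2
    · intro e he
      exact (mem_filter.mp he).2
    · intro e he
      exact (mem_filter.mp he).2
    · exact ⟨bi_ins A _ _ _ _ subset_rfl subset_rfl _ _ hnear.1,
        bi_ins B _ _ _ _ subset_rfl subset_rfl _ _ hnear.2.1,
        bi_ins C _ _ _ _ subset_rfl subset_rfl _ _ hnear.2.2⟩
    · exact ⟨bi_ins A _ _ _ _ (hsub 0) (hsub 1) _ _ hnext.1,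
        bi_ins B _ _ _ _ (hsub 1) (hsub 2) _ _ hnext.2.1,
        bi_ins C _ _ _ _ (hsub 2) (hsub 0) _ _ hnext.2.2⟩
    · rw [ins_ins A _ _ _ _ (hsub 0) (hsub 1)]
      exact hS.aA hi
    · rw [ins_ins B _ _ _ _ (hsub 1) (hsub 2)]
      exact hS.aB hi
    · rw [ins_ins C _ _ _ _ (hsub 2) (hsub 0)]
      exact hS.aC hi
  obtain ⟨P, hP, hPA, hPB, hPC, hWA, hWB, hWC, hsA, hsB, hsC⟩ := key
  refine ⟨A'' \ P.image eA, B'' \ P.image eB, C'' \ P.image eC, ?_⟩
  refine ⟨⟨P0 ∪ P, ?_, ?_, ?_, ?_⟩, ?_, ?_, ?_, ?_, ?_, ?_, ?_, ?_, ?_, ?_⟩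
  · apply (hPKU (Fin N) (Fin N) (Fin N)).1 A' B' C' P0 P hP0
    rw [← hA'', ← hB'', ← hC'']
    exact hP
  · rw [hA'', image_union, sdiff_sdiff_left]
    rfl
  · rw [hB'', image_union, sdiff_sdiff_left]
    rfl
  · rw [hC'', image_union, sdiff_sdiff_left]
    rfl
  · exact (hPKB (Fin N) (Fin N) (Fin N)).1 A'' B'' C'' P hP hS.bal
  · intro e he
    exact (mem_filter.mp (hPA he)).2
  · intro e he
    exact (mem_filter.mp (hPB he)).2
  · intro e he
    exact (mem_filter.mp (hPC he)).2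
  · intro h
    rw [← hWV h 0, ← hWV h 1]
    exact agree_step A A'' _ _ _ _ _ (hS.aA hi) (hWU 0) (hWU 1) hWA
  · intro h
    rw [← hWV h 1, ← hWV h 2]
    exact agree_step B B'' _ _ _ _ _ (hS.aB hi) (hWU 1) (hWU 2) hWB
  · intro h
    rw [← hWV h 2, ← hWV h 0]
    exact agree_step C C'' _ _ _ _ _ (hS.aC hi) (hWU 2) (hWU 0) hWC
  · intro h
    rw [hUc 0]
    exact sm_mono _ _ _ (sub_step A A'' _ _ _ (hS.aA hi)) hsA
  · intro h
    rw [hUc 0]
    exact sm_mono _ _ _ (sub_step B B'' _ _ _ (hS.aB hi)) hsB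
  · intro h
    rw [hUc 0]
    exact sm_mono _ _ _ (sub_step C C'' _ _ _ (hS.aC hi)) hsC

end Pool.Agent.Helper18.IA
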